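import Mathlib

set_option autoImplicit false

open scoped commutatorElement

universe u

namespace Pool.Agent.Lib.MP_6a2cdd_al

/-- defining relators of the right-angled Coxeter group of a graph -/
def racgRels {V : Type u} (Γ : SimpleGraph V) : Set (FreeGroup V) :=
  {r | ∃ v, r = FreeGroup.of v * FreeGroup.of v} ∪
    {r | ∃ v w, Γ.Adj v w ∧ r = ⁅FreeGroup.of v, FreeGroup.of w⁆}

/-- the right-angled Coxeter group `C(Γ)` of a graph `Γ` -/
abbrev RACG {V : Type u} (Γ : SimpleGraph V) : Type u := PresentedGroup (racgRels Γ)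

/-- the standard generator of a vertex -/
def gen {V : Type u} (Γ : SimpleGraph V) (v : V) : RACG Γ := PresentedGroup.of v

/-- reflections: the conjugates of the standard generators -/
def IsReflection {V : Type u} (Γ : SimpleGraph V) (x : RACG Γ) : Prop :=
  ∃ (g : RACG Γ) (v : V), x = g * gen Γ v * g⁻¹

/-- products of `k` pairwise commuting reflections -/
def IsProdCommReflections {V : Type u} (Γ : SimpleGraph V) (k : ℕ) (x : RACG Γ) : Prop :=
  ∃ l : List (RACG Γ), l.length = k ∧ (∀ r ∈ l, IsReflection Γ r) ∧ l.Pairwise Commute ∧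
    l.prod = x

section basic

variable {V : Type u} (Γ : SimpleGraph V)

theorem gen_mul_self (v : V) : gen Γ v * gen Γ v = 1 := by
  have : PresentedGroup.mk (racgRels Γ) (FreeGroup.of v * FreeGroup.of v) = 1 :=
    PresentedGroup.one_of_mem (Or.inl ⟨v, rfl⟩)
  exact this

theorem gen_comm {v w : V} (h : Γ.Adj v w) : Commute (gen Γ v) (gen Γ w) := by
  have : PresentedGroup.mk (racgRels Γ) ⁅FreeGroup.of v, FreeGroup.of w⁆ = 1 :=
    PresentedGroup.one_of_mem (Or.inr ⟨v, w, h, rfl⟩)
  rw [map_commutatorElement, commutatorElement_eq_one_iff_mul_comm] at this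
  exact this

variable {G : Type*} [Group G] (f : V → G)

/-- universal property -/
theorem rels_lift (h1 : ∀ v, f v * f v = 1) (h2 : ∀ v w, Γ.Adj v w → Commute (f v) (f w)) :
    ∀ r ∈ racgRels Γ, FreeGroup.lift f r = 1 := by
  rintro r (⟨v, rfl⟩ | ⟨v, w, hvw, rfl⟩)
  · simp [h1]
  · rw [map_commutatorElement, commutatorElement_eq_one_iff_mul_comm]
    simpa using (h2 v w hvw).eq

/-- universal property -/
def toG (h1 : ∀ v, f v * f v = 1) (h2 : ∀ v w, Γ.Adj v w → Commute (f v) (f w)) :
    RACG Γ →* G :=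
  PresentedGroup.toGroup (rels_lift Γ f h1 h2)

theorem toG_gen (h1 : ∀ v, f v * f v = 1) (h2 : ∀ v w, Γ.Adj v w → Commute (f v) (f w)) (v : V) :
    toG Γ f h1 h2 (gen Γ v) = f v :=
  PresentedGroup.toGroup.of _

theorem gen_ne_one (v : V) : gen Γ v ≠ 1 := by
  intro h
  have := toG_gen Γ (fun _ => Multiplicative.ofAdd (1 : ZMod 2)) (fun _ => by decide)
    (fun _ _ _ => Commute.all _ _) v
  rw [h, map_one] at this
  exact absurd this (by decide)

theorem gen_injective : Function.Injective (gen Γ) := by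
  classical
  intro v w h
  by_contra hvw
  let f : V → Multiplicative (ZMod 2) := fun x => if x = v then Multiplicative.ofAdd 1 else 1
  have h1 := toG_gen Γ f (fun x => by
    simp only [f]
    split_ifs
    · decide
    · rfl) (fun _ _ _ => Commute.all _ _) v
  have h2 := toG_gen Γ f (fun x => by
    simp only [f]
    split_ifs
    · decide
    · rfl) (fun _ _ _ => Commute.all _ _) w
  rw [h, h2] at h1
  have e1 : f v = Multiplicative.ofAdd 1 := if_pos rfl
  have e2 : f w = 1 := if_neg (fun h => hvw h.symm)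
  rw [e1, e2] at h1
  exact absurd h1 (by decide)

/-- A right-angled Coxeter group in which distinct involutions never commute and in which
products of two involutions commute with each other has at most two vertices. -/
theorem few_vertices
    (hc : ∀ x y : RACG Γ, x ≠ 1 → y ≠ 1 → x * x = 1 → y * y = 1 → Commute x y → x = y)
    (ht : ∀ x y x' y' : RACG Γ, x ≠ 1 → y ≠ 1 → x' ≠ 1 → y' ≠ 1 → x * x = 1 → y * y = 1 →
      x' * x' = 1 → y' * y' = 1 → Commute (x * y) (x' * y')) (a b c : V)
    (hab : a ≠ b) (hbc : b ≠ c) (hac : a ≠ c) : False := by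
  classical
  have hadj : ∀ v w, ¬ Γ.Adj v w := by
    intro v w h
    have := hc (gen Γ v) (gen Γ w) (gen_ne_one Γ v) (gen_ne_one Γ w) (gen_mul_self Γ v)
      (gen_mul_self Γ w) (gen_comm Γ h)
    exact h.ne (gen_injective Γ this)
  let f : V → Equiv.Perm (Fin 3) := fun x => if x = a then Equiv.swap 0 1 else
    if x = c then Equiv.swap 1 2 else 1
  have hf : ∀ v, f v * f v = 1 := by
    intro v
    simp only [f]
    split_ifs
    · decide
    · decide
    · rfl
  have h2 : ∀ v w, Γ.Adj v w → Commute (f v) (f w) := fun v w h => absurd h (hadj v w)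
  have h := ht (gen Γ a) (gen Γ b) (gen Γ b) (gen Γ c) (gen_ne_one Γ a) (gen_ne_one Γ b)
    (gen_ne_one Γ b) (gen_ne_one Γ c) (gen_mul_self Γ a) (gen_mul_self Γ b) (gen_mul_self Γ b)
    (gen_mul_self Γ c)
  have h' := h.map (toG Γ f hf h2)
  rw [map_mul, map_mul, toG_gen, toG_gen, toG_gen] at h'
  have ea : f a = Equiv.swap 0 1 := if_pos rfl
  have eb : f b = 1 := by simp [f, hab.symm, hbc]
  have ec : f c = Equiv.swap 1 2 := by simp [f, hac.symm]
  rw [ea, eb, ec] at h'
  exact absurd h'.eq (by decide)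

end basic

end Pool.Agent.Lib.MP_6a2cdd_al
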