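import Mathlib
import Pool.Agent.Lib.MP_6a2cdd_al.Racg

set_option autoImplicit false
set_option linter.unusedSimpArgs false

open scoped commutatorElement

universe u

namespace Pool.Agent.Lib.MP_6a2cdd_al

/-- the `n`-fold join of two points -/
def joinGraph (n : ℕ) : SimpleGraph (Fin n × Bool) where
  Adj v w := v.1 ≠ w.1
  symm := ⟨fun _ _ h => h.symm⟩
  loopless := ⟨fun _ h => h rfl⟩

theorem cliqueNum_joinGraph (n : ℕ) : (joinGraph n).cliqueNum = n := by
  classical
  apply le_antisymm
  · obtain ⟨s, hs⟩ := (joinGraph n).exists_isNClique_cliqueNum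
    rw [← hs.card_eq]
    have h : s.card ≤ (Finset.univ : Finset (Fin n)).card := by
      refine Finset.card_le_card_of_injOn Prod.fst (fun _ _ => Finset.mem_coe.2 (Finset.mem_univ _)) ?_
      intro v hv w hw h
      by_contra hne
      exact hs.isClique hv hw hne h
    simpa using h
  · have hc : (joinGraph n).IsClique
        ((Finset.univ.image (fun i : Fin n => (i, false)) : Finset (Fin n × Bool)) :
          Set (Fin n × Bool)) := by
      intro v hv w hw hne
      simp only [Finset.coe_image, Finset.coe_univ, Set.image_univ, Set.mem_range] at hv hw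
      obtain ⟨i, rfl⟩ := hv
      obtain ⟨j, rfl⟩ := hw
      intro h
      exact hne (by simpa using h)
    have := SimpleGraph.IsClique.card_le_cliqueNum (tc := hc)
    rw [Finset.card_image_of_injective _ (fun i j h => by simpa using h)] at this
    simpa using this

/-- infinite dihedral group -/
inductive D : Type
  | r (k : ℤ) : D
  | sr (k : ℤ) : D

namespace D

instance : Mul D := ⟨fun x y =>
  match x, y with
  | r i, r j => r (i + j)
  | r i, sr j => sr (j - i)
  | sr i, r j => sr (i + j)
  | sr i, sr j => r (j - i)⟩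
instance : One D := ⟨r 0⟩
instance : Inv D := ⟨fun x =>
  match x with
  | r i => r (-i)
  | sr i => sr i⟩

theorem r_mul_r (i j : ℤ) : r i * r j = r (i + j) := rfl
theorem r_mul_sr (i j : ℤ) : r i * sr j = sr (j - i) := rfl
theorem sr_mul_r (i j : ℤ) : sr i * r j = sr (i + j) := rfl
theorem sr_mul_sr (i j : ℤ) : sr i * sr j = r (j - i) := rfl
theorem one_def : (1 : D) = r 0 := rfl
theorem inv_r (i : ℤ) : (r i)⁻¹ = r (-i) := rfl
theorem inv_sr (i : ℤ) : (sr i)⁻¹ = sr i := rfl

instance : Group D :=
  Group.ofLeftAxioms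
    (by
      rintro (i | i) (j | j) (k | k) <;>
        simp only [r_mul_r, r_mul_sr, sr_mul_r, sr_mul_sr, r.injEq, sr.injEq] <;> ring)
    (by rintro (i | i) <;> simp only [one_def, r_mul_r, r_mul_sr, r.injEq, sr.injEq] <;> ring)
    (by
      rintro (i | i) <;>
        simp only [one_def, inv_r, inv_sr, r_mul_r, sr_mul_sr, r.injEq, sr.injEq] <;> ring)

theorem sr_mul_self (i : ℤ) : sr i * sr i = 1 := by
  rw [sr_mul_sr, sub_self, one_def]

end D

variable (n : ℕ)

/-- images of the generators -/
def psiFun (v : Fin n × Bool) : Fin n → D :=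
  Pi.mulSingle v.1 (D.sr (if v.2 then 1 else 0))

theorem psi_h1 (v : Fin n × Bool) : psiFun n v * psiFun n v = 1 := by
  rw [psiFun, ← Pi.mulSingle_mul, D.sr_mul_self, Pi.mulSingle_one]

theorem psi_h2 (v w : Fin n × Bool) (h : (joinGraph n).Adj v w) :
    Commute (psiFun n v) (psiFun n w) :=
  Pi.mulSingle_commute h _ _

/-- the homomorphism to a power of the infinite dihedral group -/
def Psi : RACG (joinGraph n) →* (Fin n → D) :=
  toG (joinGraph n) (psiFun n) (psi_h1 n) (psi_h2 n)

theorem Psi_gen (v : Fin n × Bool) : Psi n (gen (joinGraph n) v) = psiFun n v :=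
  toG_gen _ _ _ _ v

section dih

variable {G : Type} [Group G] (s t : G) (hs : s * s = 1) (ht : t * t = 1)

include hs ht in
theorem dih_inv : s * (s * t) * s = (s * t)⁻¹ := by
  have h1 : s⁻¹ = s := inv_eq_of_mul_eq_one_left hs
  have h2 : t⁻¹ = t := inv_eq_of_mul_eq_one_left ht
  rw [mul_inv_rev, h1, h2, ← mul_assoc s s t, hs, one_mul]

include hs ht in
theorem dih_zpow (k : ℤ) : s * (s * t) ^ k = (s * t) ^ (-k) * s := by
  have h1 : s⁻¹ = s := inv_eq_of_mul_eq_one_left hs
  have h := dih_inv s t hs ht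
  have h3 : s * (s * t) ^ k * s⁻¹ = (s * (s * t) * s⁻¹) ^ k := (conj_zpow).symm
  rw [h1, h, inv_zpow'] at h3
  rw [← h3, mul_assoc, hs, mul_one]

/-- the homomorphism from the infinite dihedral group given by two involutions -/
def dihHom : D →* G where
  toFun
    | D.r k => (s * t) ^ (k : ℤ)
    | D.sr k => s * (s * t) ^ (k : ℤ)
  map_one' := by
    change (s * t) ^ (0 : ℤ) = 1
    simp
  map_mul' := by
    rintro (i | i) (j | j)
    · change (s * t) ^ (i + j : ℤ) = (s * t) ^ (i : ℤ) * (s * t) ^ (j : ℤ)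
      rw [zpow_add]
    · change s * (s * t) ^ (j - i : ℤ) = (s * t) ^ (i : ℤ) * (s * (s * t) ^ (j : ℤ))
      rw [← mul_assoc]
      have := dih_zpow s t hs ht (-i)
      rw [neg_neg] at this
      rw [← this, mul_assoc, ← zpow_add]
      congr 2
      ring
    · change s * (s * t) ^ (i + j : ℤ) = s * (s * t) ^ (i : ℤ) * (s * t) ^ (j : ℤ)
      rw [mul_assoc, ← zpow_add]
    · change (s * t) ^ (j - i : ℤ) = s * (s * t) ^ (i : ℤ) * (s * (s * t) ^ (j : ℤ))
      rw [dih_zpow s t hs ht, mul_assoc, ← mul_assoc s s, hs, one_mul, ← zpow_add]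
      congr 1
      ring

theorem dihHom_sr_zero : dihHom s t hs ht (D.sr (0 : ℤ)) = s := by
  change s * (s * t) ^ (0 : ℤ) = s
  simp

theorem dihHom_sr_one : dihHom s t hs ht (D.sr (1 : ℤ)) = t := by
  change s * (s * t) ^ (1 : ℤ) = t
  rw [zpow_one, ← mul_assoc, hs, one_mul]

theorem dihHom_commute {s t : G} {hs : s * s = 1} {ht : t * t = 1} {g : G} (h1 : Commute s g)
    (h2 : Commute t g) (x : D) : Commute (dihHom s t hs ht x) g := by
  rcases x with k | k
  · exact (h1.mul_left h2).zpow_left k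
  · exact h1.mul_left ((h1.mul_left h2).zpow_left k)

end dih

/-- the homomorphisms of the factors -/
def phi (i : Fin n) : D →* RACG (joinGraph n) :=
  dihHom (gen _ (i, false)) (gen _ (i, true)) (gen_mul_self _ _) (gen_mul_self _ _)

theorem phi_comm : Pairwise fun i j => ∀ x y, Commute (phi n i x) (phi n j y) := by
  intro i j hij x y
  have key : ∀ b c, Commute (gen (joinGraph n) (i, b)) (gen (joinGraph n) (j, c)) := fun b c =>
    gen_comm _ hij
  refine dihHom_commute ?_ ?_ x
  · exact (dihHom_commute (key false false).symm (key false true).symm y).symm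
  · exact (dihHom_commute (key true false).symm (key true true).symm y).symm

/-- the inverse homomorphism -/
def Theta : (Fin n → D) →* RACG (joinGraph n) :=
  MonoidHom.noncommPiCoprod (phi n) (phi_comm n)

theorem Theta_Psi : (Theta n).comp (Psi n) = MonoidHom.id _ := by
  apply PresentedGroup.ext
  rintro ⟨i, b⟩
  change Theta n (Psi n (gen (joinGraph n) (i, b))) = gen (joinGraph n) (i, b)
  rw [Psi_gen, psiFun, Theta]
  rw [MonoidHom.noncommPiCoprod_mulSingle]
  cases b
  · exact dihHom_sr_zero _ _ _ _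
  · exact dihHom_sr_one _ _ _ _

theorem Psi_injective : Function.Injective (Psi n) := by
  intro x y h
  have := congrArg (Theta n) h
  have e := fun x => DFunLike.congr_fun (Theta_Psi n) x
  simp only [MonoidHom.comp_apply, MonoidHom.id_apply] at e
  rwa [e, e] at this

/-- the generalised reflection attached to a choice of one vertex in each factor -/
def xb (b : Fin n → Bool) : RACG (joinGraph n) :=
  ((List.finRange n).map (fun i => gen (joinGraph n) (i, b i))).prod

theorem xb_spec (b : Fin n → Bool) : IsProdCommReflections (joinGraph n) n (xb n b) := by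
  refine ⟨(List.finRange n).map (fun i => gen (joinGraph n) (i, b i)), by simp, ?_, ?_, rfl⟩
  · intro r hr
    obtain ⟨i, -, rfl⟩ := List.mem_map.1 hr
    exact ⟨1, (i, b i), by simp⟩
  · rw [List.pairwise_map]
    refine (List.nodup_finRange n).imp ?_
    intro i j hij
    exact gen_comm _ hij

theorem prod_mulSingle_apply (x : Fin n → D) (l : List (Fin n)) (hl : l.Nodup) (j : Fin n) :
    ((l.map (fun i => (Pi.mulSingle i (x i) : Fin n → D))).prod) j = if j ∈ l then x j else 1 := by
  induction l with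
  | nil => simp
  | cons i l ih =>
    rw [List.nodup_cons] at hl
    rw [List.map_cons, List.prod_cons, Pi.mul_apply, ih hl.2]
    by_cases hij : j = i
    · subst hij
      simp [hl.1]
    · rw [Pi.mulSingle_eq_of_ne hij]
      simp [hij]

theorem Psi_xb (b : Fin n → Bool) (j : Fin n) :
    Psi n (xb n b) j = D.sr (if b j then 1 else 0) := by
  rw [xb, map_list_prod, List.map_map]
  have : (List.map ((Psi n) ∘ fun i => gen (joinGraph n) (i, b i)) (List.finRange n)) =
      List.map (fun i => (Pi.mulSingle i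
        ((fun j => D.sr (if b j then 1 else 0)) i : D) : Fin n → D))
        (List.finRange n) := by
    apply List.map_congr_left
    intro i _
    exact Psi_gen n (i, b i)
  rw [this, prod_mulSingle_apply n _ _ (List.nodup_finRange n)]
  simp

/-- the subgroup of elements whose coordinates are all rotations or all reflections -/
def parity : Subgroup (Fin n → D) where
  carrier := {g | (∀ i, ∃ k : ℤ, g i = D.r k) ∨ (∀ i, ∃ k : ℤ, g i = D.sr k)}
  mul_mem' := by
    rintro x y (hx | hx) (hy | hy)
    · left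
      intro i
      obtain ⟨k, hk⟩ := hx i
      obtain ⟨l, hl⟩ := hy i
      exact ⟨k + l, by rw [Pi.mul_apply, hk, hl]; exact D.r_mul_r k l⟩
    · right
      intro i
      obtain ⟨k, hk⟩ := hx i
      obtain ⟨l, hl⟩ := hy i
      exact ⟨l - k, by rw [Pi.mul_apply, hk, hl]; exact D.r_mul_sr k l⟩
    · right
      intro i
      obtain ⟨k, hk⟩ := hx i
      obtain ⟨l, hl⟩ := hy i
      exact ⟨k + l, by rw [Pi.mul_apply, hk, hl]; exact D.sr_mul_r k l⟩
    · left
      intro i
      obtain ⟨k, hk⟩ := hx i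
      obtain ⟨l, hl⟩ := hy i
      exact ⟨l - k, by rw [Pi.mul_apply, hk, hl]; exact D.sr_mul_sr k l⟩
  one_mem' := Or.inl fun i => ⟨0, rfl⟩
  inv_mem' := by
    rintro x (hx | hx)
    · left
      intro i
      obtain ⟨k, hk⟩ := hx i
      exact ⟨-k, by rw [Pi.inv_apply, hk]; exact D.inv_r k⟩
    · right
      intro i
      obtain ⟨k, hk⟩ := hx i
      exact ⟨k, by rw [Pi.inv_apply, hk]; exact D.inv_sr k⟩

/-- the generalised reflection subgroup -/
def HH : Subgroup (RACG (joinGraph n)) := Subgroup.closure (Set.range (xb n))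

theorem mem_parity {x : RACG (joinGraph n)} (hx : x ∈ HH n) : Psi n x ∈ parity n := by
  have : HH n ≤ (parity n).comap (Psi n) := by
    rw [HH, Subgroup.closure_le]
    rintro _ ⟨b, rfl⟩
    exact Or.inr fun i => ⟨_, Psi_xb n b i⟩
  exact this hx

/-- nontrivial elements of square one have reflection coordinates -/
theorem refl_of_sq {x : RACG (joinGraph n)} (hx : x ∈ HH n) (h1 : x ≠ 1) (h2 : x * x = 1) :
    ∀ i, ∃ k : ℤ, Psi n x i = D.sr k := by
  rcases mem_parity n hx with h | h
  · exfalso
    apply h1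
    apply Psi_injective n
    rw [map_one]
    funext i
    obtain ⟨k, hk⟩ := h i
    have h3 : Psi n x * Psi n x = 1 := by rw [← map_mul, h2, map_one]
    have h4 := congrFun h3 i
    rw [Pi.mul_apply, hk] at h4
    have h5 : (D.r (k + k : ℤ) : D) = D.r (0 : ℤ) := h4
    have h6 : (k + k : ℤ) = 0 := D.r.inj h5
    have h7 : k = 0 := by omega
    rw [hk, h7]
    rfl
  · exact h

theorem comm_eq {x y : RACG (joinGraph n)} (hx : x ∈ HH n) (hy : y ∈ HH n) (hx1 : x ≠ 1)
    (hy1 : y ≠ 1) (hx2 : x * x = 1) (hy2 : y * y = 1) (h : Commute x y) : x = y := by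
  apply Psi_injective n
  funext i
  obtain ⟨k, hk⟩ := refl_of_sq n hx hx1 hx2 i
  obtain ⟨l, hl⟩ := refl_of_sq n hy hy1 hy2 i
  have h1 := congrFun (h.map (Psi n)).eq i
  rw [Pi.mul_apply, Pi.mul_apply, hk, hl] at h1
  have h5 : (D.r (l - k : ℤ) : D) = D.r (k - l : ℤ) := h1
  have h6 : (l - k : ℤ) = k - l := D.r.inj h5
  have h7 : k = l := by omega
  rw [hk, hl, h7]

theorem prod_comm' {x y x' y' : RACG (joinGraph n)} (hx : x ∈ HH n) (hy : y ∈ HH n)
    (hx' : x' ∈ HH n) (hy' : y' ∈ HH n) (hx1 : x ≠ 1) (hy1 : y ≠ 1) (hx1' : x' ≠ 1)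
    (hy1' : y' ≠ 1) (hx2 : x * x = 1) (hy2 : y * y = 1) (hx2' : x' * x' = 1)
    (hy2' : y' * y' = 1) : Commute (x * y) (x' * y') := by
  apply Psi_injective n
  funext i
  obtain ⟨k, hk⟩ := refl_of_sq n hx hx1 hx2 i
  obtain ⟨l, hl⟩ := refl_of_sq n hy hy1 hy2 i
  obtain ⟨k', hk'⟩ := refl_of_sq n hx' hx1' hx2' i
  obtain ⟨l', hl'⟩ := refl_of_sq n hy' hy1' hy2' i
  simp only [map_mul, Pi.mul_apply, hk, hl, hk', hl']
  change (D.r ((l - k) + (l' - k') : ℤ) : D) = D.r ((l' - k') + (l - k) : ℤ)
  rw [add_comm]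

/-- A homomorphism to an elementary abelian group of order eight. -/
def rhoFun (v : Fin n × Bool) : Multiplicative (ZMod 2 × ZMod 2 × ZMod 2) :=
  Multiplicative.ofAdd (if v.1.1 = 0 then (if v.2 then (0, 1, 0) else (1, 0, 0)) else
    if v.1.1 = 1 then (if v.2 then (0, 0, 0) else (0, 0, 1)) else (0, 0, 0))

theorem elem2 (a : Multiplicative (ZMod 2 × ZMod 2 × ZMod 2)) : a * a = 1 := by
  revert a
  decide

/-- A homomorphism to an elementary abelian group of order eight. -/
def rho : RACG (joinGraph n) →* Multiplicative (ZMod 2 × ZMod 2 × ZMod 2) :=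
  toG (joinGraph n) (rhoFun n) (fun _ => elem2 _) (fun _ _ _ => Commute.all _ _)

end Pool.Agent.Lib.MP_6a2cdd_al
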